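import Pool.Agent.H451_SparseStack.Main
import Pool.Agent.H451_SparseStack.Isotropy

set_option autoImplicit false

/-!
# Constant sparsity SparseStacks are not oblivious subspace injections

Negative answers to Q1 and Q2 of MP_59a663_pr, with a quantitative form: sparsity
`ζ ≤ c √(log r)` and at most `C r` columns never suffice.
-/

namespace Pool.Agent.Results.MP_59a663_pr.ConstantSparsity

open Pool.Agent.H451_SparseStack Matrix

theorem exists_n (c : ℝ) (hc : 0 < c) (r : ℕ) :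
    ∃ n : ℕ, r ≤ n ∧ (r : ℝ) ≤ c * n / Real.log n := by
  have h1 : (fun x : ℝ => ((r : ℝ) / c) * Real.log x) =o[Filter.atTop] fun x : ℝ => x :=
    (Real.isLittleO_log_id_atTop).const_mul_left _
  have h2 := tendsto_natCast_atTop_atTop.eventually (h1.def one_pos)
  obtain ⟨n, hn, hnr, hn2⟩ := (h2.and ((Filter.eventually_ge_atTop r).and
    (Filter.eventually_ge_atTop 2))).exists
  refine ⟨n, hnr, ?_⟩
  have hn1 : (1 : ℝ) < (n : ℝ) := by
    have : 1 < n := by omega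
    exact_mod_cast this
  have hlog : 0 < Real.log n := Real.log_pos hn1
  rw [Real.norm_eq_abs, Real.norm_eq_abs, one_mul, abs_of_nonneg (by positivity : (0 : ℝ) ≤ n)]
    at hn
  have h3 := (abs_le.mp hn).2
  rw [le_div_iff₀ hlog]
  have h4 := mul_le_mul_of_nonneg_left h3 hc.le
  calc (r : ℝ) * Real.log n = c * (r / c * Real.log n) := by field_simp
    _ ≤ c * n := h4

theorem not_isOSI {n r ζ b : ℕ} {α : ℝ} (h : r ≤ n)
    (hp : prob (fun ω : Sample n ζ b => Injects α (coordSubspace h) ω) ≤ 1 / 2) :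
    ¬ IsOSI n ζ b r α 0.01 := by
  intro hO
  have := hO.2 (coordSubspace h) (finrank_coordSubspace h)
  norm_num at this
  linarith

theorem result :
    -- quantitative form: sparsity at most `c √(log r)` fails with probability near one
    (∀ C α ε : ℝ, 0 < C → 0 < α → 0 < ε →
      ∃ c : ℝ, 0 < c ∧ ∃ r₀ : ℕ, ∀ n r : ℕ, r₀ ≤ r → r ≤ n →
        ∃ V : Submodule ℝ (Fin n → ℝ), Module.finrank ℝ V = r ∧
          ∀ ζ b : ℕ, 1 ≤ ζ → 1 ≤ b → (ζ : ℝ) * b ≤ C * r → (ζ : ℝ) ≤ c * √(Real.log r) →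
            prob (fun ω : Sample n ζ b => Injects α V ω) ≤ ε) ∧
    -- the negated form of Q1, for arbitrarily large `r`
    (∀ c C₁ C₂ α₀ : ℝ, 0 < c → 0 < C₁ → 0 < C₂ → 0 < α₀ → ∀ N : ℕ,
      ∃ n r : ℕ, N ≤ r ∧ r ≤ n ∧ (r : ℝ) ≤ c * n / Real.log n ∧
        ∀ ζ b : ℕ, 1 ≤ ζ → (ζ : ℝ) ≤ C₁ → 1 ≤ b → (b : ℝ) * ζ ≤ C₂ * r →
          ¬ IsOSI n ζ b r α₀ 0.01) ∧
    -- the negative answer to Q2
    (∀ α₀ : ℝ, 0 < α₀ → ∃ r₀ : ℕ, ∀ n r : ℕ, r₀ ≤ r → r ≤ n → Even r →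
      ¬ IsOSI n 4 (r / 2) r α₀ 0.01) ∧
    -- the isotropy part of the definition always holds
    (∀ n ζ b : ℕ, 1 ≤ ζ → 1 ≤ b → ∀ x : Fin n → ℝ,
      mean (fun ω : Sample n ζ b => normSq ((sparseStack ω)ᵀ *ᵥ x)) = normSq x) := by
  refine ⟨?_, ?_, ?_, fun n ζ b hζ hb x => isotropy hζ hb x⟩
  · intro C α ε hC hα hε
    obtain ⟨c, hc, r₀, H⟩ := main C α ε hC hα hε
    refine ⟨c, hc, r₀, fun n r hr h => ⟨coordSubspace h, finrank_coordSubspace h, ?_⟩⟩
    intro ζ b hζ hb h1 h2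
    exact H n r hr h ζ b hζ hb h1 h2
  · intro c C₁ C₂ α₀ hc hC₁ hC₂ hα₀ N
    obtain ⟨c', hc', r₀, H⟩ := main C₂ α₀ (1 / 2) hC₂ hα₀ (by norm_num)
    have h1 : Filter.Tendsto (fun r : ℕ => c' * √(Real.log r)) Filter.atTop Filter.atTop := by
      apply Filter.Tendsto.const_mul_atTop hc'
      exact Real.tendsto_sqrt_atTop.comp (Real.tendsto_log_atTop.comp tendsto_natCast_atTop_atTop)
    obtain ⟨r, hr1, hr2, hr3⟩ := ((h1.eventually_ge_atTop C₁).and
      ((Filter.eventually_ge_atTop r₀).and (Filter.eventually_ge_atTop N))).exists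
    obtain ⟨n, hn, hn'⟩ := exists_n c hc r
    refine ⟨n, r, hr3, hn, hn', ?_⟩
    intro ζ b hζ hζC hb hbζ
    apply not_isOSI hn
    exact H n r hr2 hn ζ b hζ hb (by rw [mul_comm]; exact hbζ) (hζC.trans hr1)
  · intro α₀ hα₀
    obtain ⟨c', hc', r₀, H⟩ := main 2 α₀ (1 / 2) (by norm_num) hα₀ (by norm_num)
    have h1 : Filter.Tendsto (fun r : ℕ => c' * √(Real.log r)) Filter.atTop Filter.atTop := by
      apply Filter.Tendsto.const_mul_atTop hc'
      exact Real.tendsto_sqrt_atTop.comp (Real.tendsto_log_atTop.comp tendsto_natCast_atTop_atTop)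
    obtain ⟨r₁, hr₁⟩ := Filter.eventually_atTop.mp ((h1.eventually_ge_atTop 4).and
      ((Filter.eventually_ge_atTop r₀).and (Filter.eventually_ge_atTop 2)))
    refine ⟨r₁, ?_⟩
    intro n r hr h heven
    obtain ⟨h2, h3, h4⟩ := hr₁ r hr
    apply not_isOSI h
    refine H n r h3 h 4 (r / 2) (by norm_num) (by omega) ?_ (by exact_mod_cast h2)
    obtain ⟨k, hk⟩ := heven
    have : r / 2 = k := by omega
    rw [this, hk]
    push_cast
    linarith

end Pool.Agent.Results.MP_59a663_pr.ConstantSparsity
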